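import Pool.Agent.H66.GEO.END
import Pool.Agent.H66.GEO.STR1

/-!
# GEO*, step 6: END for any number of critical points (think 1880, section 5; helper98)

`x s` are the strip maps of the disc (`XX`), `φ k` the charts of the windows `T_k`, `u k → ∞`, `ψ k = φ k ∘ x (u k)`.
`FI B m n = B m ∘ .. ∘ B (m+n-1)`, `B s = Bl (ω s) (α s)`. For `m + n = u k` the function
`f x = FI B m n ((φ k)⁻¹ (W x))` on `O_k` (values in the disc) satisfies `f (x + 2 ^ m / 2 ^ (u k + 1)) = - f x`, so it tends to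
`0` at `gp + i ρ` (Schwarz), for every `m`; hence `B m 0 = 0`, `α m = 0`.
-/

set_option autoImplicit false

open Filter Topology Metric Set

namespace Pool.Agent.H66.GEO.EN

/-- the degree two maps of the disc -/
noncomputable def BF (ω α : ℕ → ℂ) (s : ℕ) (y : ℂ) : ℂ := Bl (ω s) (α s) y

theorem FI_succ (F : ℕ → ℂ → ℂ) (k m : ℕ) (w : ℂ) : FI F k (m + 1) w = F k (FI F (k + 1) m w) := by
  induction m generalizing w with
  | zero => rfl
  | succ m ih =>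
    have h1 : FI F k (m + 1 + 1) w = FI F k (m + 1) (F (k + (m + 1)) w) := rfl
    have h2 : FI F (k + 1) (m + 1) w = FI F (k + 1) m (F (k + 1 + m) w) := rfl
    rw [h1, h2, ih, show k + (m + 1) = k + 1 + m by omega]

/-- highest points of the line close to `gp` -/
theorem near_one {th l : ℝ} {G0 : ℂ → ℂ} (hG : DifferentiableOn ℂ G0 (Ss th 0))
    (p0 : ∀ t ∈ Ss th 0, G0 (t + Real.pi * Complex.I) = G0 t + 1 / 2) (h1 : Real.log th < l) (h2 : l < 0) :
    ∃ C : ℝ, 0 ≤ C ∧ ∀ (s : ℕ) (K : ℂ → ℂ) (b gp : ℂ) (ρ : ℝ), (∀ t ∈ Ss th s, G0 (2 ^ s * t) = 2 ^ s * K t + b) →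
      (∃ t : ℂ, t.re = l / 2 ^ s ∧ ‖K t - gp‖ < ρ / 4) → (C + 1) / 2 ^ s < ρ / 4 →
      ∃ t : ℂ, t ∈ Ss th s ∧ (∀ v : ℂ, v.re = l / 2 ^ s → (K v).im ≤ (K t).im) ∧ ‖K t - gp‖ < ρ := by
  obtain ⟨T, C, hT, hTC⟩ := line_max hG p0 h1 h2
  have hC0 : 0 ≤ C := by
    have := (hTC T hT).2
    linarith
  refine ⟨C, hC0, ?_⟩
  intro s K b gp ρ hK hp h3'
  obtain ⟨t0, ht0, ht0'⟩ := hp
  have hp2 : (0 : ℝ) < 2 ^ s := by positivity
  have hc2 : (2 : ℂ) ^ s ≠ 0 := pow_ne_zero _ two_ne_zero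
  have hTm : T ∈ Ss th 0 := by
    have := line_mem (th := th) h1 h2 T.im
    rwa [← hT, Complex.re_add_im] at this
  set n : ℤ := ⌊2 ^ s * gp.re - (G0 T - b).re⌋ with hn
  set Tn : ℂ := T + ((2 * n : ℤ) : ℂ) * (Real.pi * Complex.I) with hTn
  have hTnre : Tn.re = l := by rw [hTn, Complex.add_re, hT]; simp
  have hTnm : Tn ∈ Ss th 0 := Ss_add hTm (by simp)
  have hval : G0 Tn = G0 T + n := by
    rw [hTn, G0_int p0 _ hTm]; push_cast; ring
  set t : ℂ := Tn / 2 ^ s with ht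
  have htT : (2 : ℂ) ^ s * t = Tn := by rw [ht]; field_simp
  have htm : t ∈ Ss th s := by rw [mem_Ss, htT]; exact hTnm
  have hKt : (2 : ℂ) ^ s * K t = G0 T + n - b := by
    have := hK t htm
    rw [htT, hval] at this
    rw [this]; ring
  have hline : ∀ u : ℂ, u.re = l / 2 ^ s → u ∈ Ss th s ∧ ((2 : ℂ) ^ s * u).re = l := by
    intro u hu
    have e1 : ((2 : ℂ) ^ s * u).re = l := by
      rw [pow_re, hu]; field_simp
    refine ⟨?_, e1⟩
    rw [mem_Ss]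
    have := line_mem (th := th) h1 h2 ((2 : ℂ) ^ s * u).im
    rwa [← e1, Complex.re_add_im] at this
  have hKim : (2 : ℝ) ^ s * (K t).im = (G0 T).im - b.im := by
    have := congrArg Complex.im hKt
    rw [pow_im] at this
    rw [this]; simp
  have hKu : ∀ u : ℂ, u.re = l / 2 ^ s → (2 : ℝ) ^ s * (K u).im = (G0 (2 ^ s * u)).im - b.im := by
    intro u hu
    have := congrArg Complex.im (hK u (hline u hu).1)
    rw [Complex.add_im, pow_im] at this
    linarith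
  refine ⟨t, htm, ?_, ?_⟩
  · intro u hu
    have e1 := (hTC _ (hline u hu).2).1
    have e2 := hKu u hu
    have e3 : (2 : ℝ) ^ s * (K u).im ≤ 2 ^ s * (K t).im := by linarith
    exact le_of_mul_le_mul_left e3 hp2
  · have e1 := hTC _ (hline t0 ht0).2
    have e2 := hKu t0 ht0
    have i0 : (2 : ℝ) ^ s * ((K t).im - (K t0).im) = (G0 T).im - (G0 (2 ^ s * t0)).im := by
      rw [mul_sub, hKim, e2]; ring
    have i1 : (2 : ℝ) ^ s * ((K t).im - (K t0).im) ≤ C := by rw [i0]; linarith [e1.2]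
    have i2 : 0 ≤ (2 : ℝ) ^ s * ((K t).im - (K t0).im) := by rw [i0]; linarith [e1.1]
    rw [div_lt_iff₀ hp2] at h3'
    have i3 : (K t).im - (K t0).im < ρ / 4 := by
      have : (2 : ℝ) ^ s * ((K t).im - (K t0).im) < 2 ^ s * (ρ / 4) := by linarith
      exact lt_of_mul_lt_mul_left this hp2.le
    have i4 : 0 ≤ (K t).im - (K t0).im := nonneg_of_mul_nonneg_right i2 hp2
    have i5 : |(K t0 - gp).im| < ρ / 4 := lt_of_le_of_lt (Complex.abs_im_le_norm _) ht0'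
    rw [Complex.sub_im, abs_lt] at i5
    have i6 : |(K t - gp).im| < ρ / 2 := by
      rw [Complex.sub_im, abs_lt]; constructor <;> linarith
    have hKre : (2 : ℝ) ^ s * (K t).re = (G0 T - b).re + n := by
      have := congrArg Complex.re hKt
      rw [pow_re] at this
      rw [this]; simp; ring
    have j1 : |(2 : ℝ) ^ s * ((K t).re - gp.re)| ≤ 1 := by
      rw [mul_sub, hKre, abs_le]
      have k1 := Int.floor_le (2 ^ s * gp.re - (G0 T - b).re)
      have k2 := Int.lt_floor_add_one (2 ^ s * gp.re - (G0 T - b).re)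
      rw [← hn] at k1 k2
      constructor <;> linarith
    have j2 : |(K t - gp).re| < ρ / 4 := by
      rw [abs_mul, abs_of_pos hp2] at j1
      rw [Complex.sub_re]
      have : (2 : ℝ) ^ s * |(K t).re - gp.re| < 2 ^ s * (ρ / 4) := by linarith
      exact lt_of_mul_lt_mul_left this hp2.le
    calc ‖K t - gp‖ ≤ |(K t - gp).re| + |(K t - gp).im| := Complex.norm_le_abs_re_add_abs_im _
      _ < ρ / 4 + ρ / 2 := add_lt_add j2 i6
      _ < ρ := by linarith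

section

variable {th : ℝ} {ω α : ℕ → ℂ}

theorem BF_mem (hω : ∀ s, ‖ω s‖ = 1) (hα : ∀ s, ‖α s‖ < 1) (k m : ℕ) {y : ℂ} (hy : ‖y‖ < 1) :
    ‖FI (BF ω α) k m y‖ < 1 := by
  induction m generalizing y with
  | zero => exact hy
  | succ m ih => exact ih (norm_Bl_lt (hω _) (hα _) hy)

theorem BF_diff (hω : ∀ s, ‖ω s‖ = 1) (hα : ∀ s, ‖α s‖ < 1) (k m : ℕ) :
    DifferentiableOn ℂ (FI (BF ω α) k m) (ball 0 1) := by
  induction m with
  | zero => exact differentiableOn_id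
  | succ m ih =>
    have h1 : DifferentiableOn ℂ (BF ω α (k + m)) (ball 0 1) := by
      intro y hy
      rw [mem_ball_zero_iff] at hy
      have hne : 1 + (starRingEnd ℂ) (α (k + m)) * y ^ 2 ≠ 0 := by
        intro h
        have h2 : ‖(starRingEnd ℂ) (α (k + m)) * y ^ 2‖ = 1 := by
          have : (starRingEnd ℂ) (α (k + m)) * y ^ 2 = -1 := by linear_combination h
          rw [this]; simp
        rw [norm_mul, Complex.norm_conj, norm_pow] at h2
        have h3 := hα (k + m)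
        have h4 : ‖y‖ ^ 2 ≤ 1 := by nlinarith [norm_nonneg y]
        have h5 : ‖α (k + m)‖ * ‖y‖ ^ 2 ≤ ‖α (k + m)‖ * 1 := mul_le_mul_of_nonneg_left h4 (norm_nonneg _)
        linarith
      have h6 : DifferentiableAt ℂ (fun y : ℂ => ω (k + m) * (y ^ 2 + α (k + m)) /
          (1 + (starRingEnd ℂ) (α (k + m)) * y ^ 2)) y := by
        refine DifferentiableAt.div (by fun_prop) (by fun_prop) hne
      exact h6.differentiableWithinAt
    exact ih.comp h1 (fun y hy => by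
      rw [mem_ball_zero_iff] at hy ⊢
      exact norm_Bl_lt (hω _) (hα _) hy)

theorem BF_xi {x : ℕ → ℂ → ℂ} (hxs : ∀ s, ∀ t ∈ Ss th (s + 1), Bl (ω s) (α s) (x (s + 1) t) = x s (2 * t))
    (k m : ℕ) {t : ℂ} (ht : t ∈ Ss th (k + m)) : FI (BF ω α) k m (x (k + m) t) = x k (2 ^ m * t) := by
  induction m generalizing t with
  | zero => simp [FI]
  | succ m ih =>
    have h1 : FI (BF ω α) k (m + 1) (x (k + (m + 1)) t) = FI (BF ω α) k m (Bl (ω (k + m)) (α (k + m)) (x (k + m + 1) t)) := rfl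
    rw [h1, hxs (k + m) t ht, ih (Ss_two ht)]
    congr 1
    ring

/-- the functional equation at the point `gp + i ρ` -/
theorem fun_star {l : ℝ} (hω : ∀ s, ‖ω s‖ = 1) (hα : ∀ s, ‖α s‖ < 1) {x : ℕ → ℂ → ℂ} (hx : ∀ s, XX th ω α s (x s))
    (hxs : ∀ s, ∀ t ∈ Ss th (s + 1), Bl (ω s) (α s) (x (s + 1) t) = x s (2 * t))
    {φ : ℂ → ℂ} (dφ : DifferentiableOn ℂ φ (ball 0 1)) (iφ : InjOn φ (ball 0 1))
    {G0 : ℂ → ℂ} (hG : DifferentiableOn ℂ G0 (Ss th 0)) (hG' : ∀ t ∈ Ss th 0, deriv G0 t ≠ 0)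
    (p0 : ∀ t ∈ Ss th 0, G0 (t + Real.pi * Complex.I) = G0 t + 1 / 2) (k m : ℕ) {K : ℂ → ℂ} {b : ℂ}
    (hK : ∀ t ∈ Ss th (k + m), G0 (2 ^ (k + m) * t) = 2 ^ (k + m) * K t + b)
    {gp : ℂ} {ρ : ℝ} (hρ : 0 < ρ) {W : ℂ → ℂ} (dW : DifferentiableOn ℂ W (ball gp (2 * ρ)))
    (hW : ∀ t ∈ Ss th (k + m), K t ∈ ball gp (2 * ρ) → W (K t) = φ (x (k + m) t))
    (cl : ∀ x ∈ ball gp (2 * ρ), (∀ t : ℂ, t.re = l / 2 ^ (k + m) → (K t).im < x.im) → W x ∈ φ '' ball 0 1)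
    (hm : 1 / (2 * 2 ^ m) < ρ / 2)
    {t : ℂ} (ht : t ∈ Ss th (k + m)) (hmax : ∀ v : ℂ, v.re = l / 2 ^ (k + m) → (K v).im ≤ (K t).im)
    (hd : ‖K t - gp‖ < ρ / 2) :
    Function.invFunOn φ (ball 0 1) (W (gp + ρ * Complex.I)) ∈ ball (0 : ℂ) 1 ∧
      2 * ‖FI (BF ω α) k m (Function.invFunOn φ (ball 0 1) (W (gp + ρ * Complex.I)))‖ ≤
        2 / (ρ / 2) * (1 / (2 * 2 ^ m)) := by
  set M : ℝ := (K t).im with hM
  set O : Set ℂ := ball gp (2 * ρ) ∩ {x : ℂ | M < x.im} with hO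
  have hOo : IsOpen O := isOpen_ball.inter (isOpen_lt continuous_const Complex.continuous_im)
  have hOc : Convex ℝ O := (convex_ball gp (2 * ρ)).inter (convex_halfSpace_im_gt M)
  have hWO : ∀ x ∈ O, W x ∈ φ '' ball 0 1 :=
    fun x hx => cl x hx.1 (fun u hu => lt_of_le_of_lt (hmax u hu) hx.2)
  set δ : ℂ := 1 / (2 * 2 ^ m) with hδ
  have hδr : δ = ((1 / (2 * 2 ^ m) : ℝ) : ℂ) := by rw [hδ]; push_cast; ring
  have hδn : ‖δ‖ = 1 / (2 * 2 ^ m) := by
    rw [hδr, Complex.norm_real, Real.norm_eq_abs, abs_of_pos (by positivity)]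
  have hδi : δ.im = 0 := by rw [hδr, Complex.ofReal_im]
  -- the holomorphic inverse of `φ`
  set j : ℂ → ℂ := Function.invFunOn φ (ball 0 1) with hj
  have hjm : ∀ w ∈ φ '' ball 0 1, j w ∈ ball (0 : ℂ) 1 ∧ φ (j w) = w :=
    fun w hw => ⟨Function.invFunOn_mem hw, Function.invFunOn_eq hw⟩
  have hjd : DifferentiableOn ℂ j (φ '' ball 0 1) := Pool.Agent.H39.HO.inj_hol isOpen_ball dφ iφ
  have hjx : ∀ y ∈ ball (0 : ℂ) 1, j (φ y) = y := by
    intro y hy
    have h1 : φ y ∈ φ '' ball 0 1 := ⟨y, hy, rfl⟩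
    exact iφ (hjm _ h1).1 hy (hjm _ h1).2
  set f : ℂ → ℂ := fun x => FI (BF ω α) k m (j (W x)) with hf
  have hfO : DifferentiableOn ℂ f O :=
    (BF_diff hω hα k m).comp (hjd.comp (dW.mono inter_subset_left) (fun x hx => hWO x hx))
      (fun x hx => (hjm _ (hWO x hx)).1)
  set U : Set ℂ := O ∩ (fun x => x + δ) ⁻¹' O with hU
  have hUo : IsOpen U := hOo.inter (hOo.preimage (by fun_prop))
  have hUc : Convex ℝ U := hOc.inter (hOc.translate_preimage_left δ)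
  have hUO : ∀ x ∈ U, x ∈ O ∧ x + δ ∈ O := fun x hx => hx
  -- the functional equation on the strip
  have hfg : ∀ v ∈ Ss th (k + m), K v ∈ O → f (K v) = x k (2 ^ m * v) := by
    intro v hv hvO
    simp only [hf]
    rw [hW v hv hvO.1, hjx _ (by rw [mem_ball_zero_iff]; exact (hx _).bal v hv), BF_xi hxs k m hv]
  have hpc : (2 : ℂ) ^ m ≠ 0 := pow_ne_zero _ two_ne_zero
  have hpk : (2 : ℂ) ^ (k + m) ≠ 0 := pow_ne_zero _ two_ne_zero
  have hcre : ((Real.pi * Complex.I) / 2 ^ m : ℂ).re = 0 := by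
    have : ((Real.pi * Complex.I) / 2 ^ m : ℂ) = ((Real.pi / 2 ^ m : ℝ) : ℂ) * Complex.I := by push_cast; ring
    rw [this, Complex.re_ofReal_mul, Complex.I_re, mul_zero]
  have hc : ∀ v ∈ Ss th (k + m), v + (Real.pi * Complex.I) / 2 ^ m ∈ Ss th (k + m) ∧
      K (v + (Real.pi * Complex.I) / 2 ^ m) = K v + δ ∧
      x k (2 ^ m * (v + (Real.pi * Complex.I) / 2 ^ m)) = - x k (2 ^ m * v) := by
    intro v hv
    have e1 : v + (Real.pi * Complex.I) / 2 ^ m ∈ Ss th (k + m) := Ss_add hv hcre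
    refine ⟨e1, ?_, ?_⟩
    · have e2 := hK _ e1
      have e3 := hK _ hv
      have e4 : (2 : ℂ) ^ (k + m) * (v + (Real.pi * Complex.I) / 2 ^ m) =
          2 ^ (k + m) * v + ((2 ^ k : ℤ) : ℂ) * (Real.pi * Complex.I) := by
        push_cast; rw [pow_add, mul_add, mul_div_assoc']; congr 1; field_simp
      rw [e4, G0_int p0 _ (mem_Ss.1 hv), e3] at e2
      have e5 : (2 : ℂ) ^ (k + m) * K (v + (Real.pi * Complex.I) / 2 ^ m) = 2 ^ (k + m) * (K v + δ) := by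
        have e6 : (2 : ℂ) ^ (k + m) * δ = ((2 ^ k : ℤ) : ℂ) / 2 := by
          rw [hδ]; push_cast; rw [pow_add]; field_simp
        rw [mul_add, e6]
        linear_combination -e2
      exact mul_left_cancel₀ hpk e5
    · have e2 : (2 : ℂ) ^ m * (v + (Real.pi * Complex.I) / 2 ^ m) = 2 ^ m * v + Real.pi * Complex.I := by
        field_simp
      have e3 : (2 : ℂ) ^ m * v ∈ Ss th k := by
        rw [mem_Ss] at hv ⊢
        rwa [← mul_assoc, ← pow_add]
      rw [e2, (hx k).per _ e3]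
  -- a point of the strip over `U`
  have hopen := K_open hG hG' hK ht
  have hnb : K '' (Ss th (k + m)) ∈ 𝓝 (K t) := by
    rw [← hopen]
    exact Filter.image_mem_map ((open_Ss th (k + m)).mem_nhds ht)
  obtain ⟨η, hη, hηb⟩ := Metric.mem_nhds_iff.1 hnb
  set x1 : ℂ := K t + ((min (η / 2) (ρ / 4) : ℝ) : ℂ) * Complex.I with hx1
  have hη2 : 0 < min (η / 2) (ρ / 4) := lt_min (by linarith) (by linarith)
  have hx1n : ‖((min (η / 2) (ρ / 4) : ℝ) : ℂ) * Complex.I‖ = min (η / 2) (ρ / 4) := by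
    rw [norm_mul, Complex.norm_I, mul_one, Complex.norm_real, Real.norm_eq_abs, abs_of_pos hη2]
  have hx1b : x1 ∈ ball (K t) η := by
    rw [mem_ball, dist_eq_norm, hx1, add_sub_cancel_left, hx1n]
    exact lt_of_le_of_lt (min_le_left _ _) (by linarith)
  obtain ⟨v, hv, hvx⟩ := hηb hx1b
  have hx1im : M < x1.im := by
    rw [hx1, Complex.add_im, Complex.im_ofReal_mul, Complex.I_im, mul_one]; linarith
  have hx1d : ‖x1 - gp‖ < ρ := by
    have : x1 - gp = (K t - gp) + ((min (η / 2) (ρ / 4) : ℝ) : ℂ) * Complex.I := by rw [hx1]; ring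
    rw [this]
    refine lt_of_le_of_lt (norm_add_le _ _) ?_
    rw [hx1n]
    have := min_le_right (η / 2) (ρ / 4)
    linarith
  have hx1U : x1 ∈ U := by
    refine ⟨⟨?_, hx1im⟩, ⟨?_, ?_⟩⟩
    · rw [mem_ball, dist_eq_norm]; linarith
    · rw [mem_ball, dist_eq_norm, show x1 + δ - gp = (x1 - gp) + δ by ring]
      refine lt_of_le_of_lt (norm_add_le _ _) ?_
      rw [hδn]; linarith
    · change M < (x1 + δ).im
      rw [Complex.add_im, hδi, add_zero]; exact hx1im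
  have hmain := spread hG hG' hK hUo hUc hUO hfO hfg hc hv (by rw [hvx]; exact hx1U)
  -- the point `gp + i ρ`
  set x0 : ℂ := gp + ρ * Complex.I with hx0
  have hx0i : ‖((ρ : ℝ) : ℂ) * Complex.I‖ = ρ := by
    rw [norm_mul, Complex.norm_I, mul_one, Complex.norm_real, Real.norm_eq_abs, abs_of_pos hρ]
  have hball : ball x0 (ρ / 2) ⊆ O := by
    intro y hy
    rw [mem_ball, dist_eq_norm] at hy
    refine ⟨?_, ?_⟩
    · rw [mem_ball, dist_eq_norm, show y - gp = (y - x0) + ρ * Complex.I by rw [hx0]; ring]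
      refine lt_of_le_of_lt (norm_add_le _ _) ?_
      rw [hx0i]; linarith
    · change M < y.im
      have e1 : |(y - x0).im| < ρ / 2 := lt_of_le_of_lt (Complex.abs_im_le_norm _) hy
      have e2 : |(K t - gp).im| < ρ / 2 := lt_of_le_of_lt (Complex.abs_im_le_norm _) hd
      rw [Complex.sub_im, abs_lt] at e1 e2
      have e3 : x0.im = gp.im + ρ := by rw [hx0, Complex.add_im, Complex.im_ofReal_mul, Complex.I_im, mul_one]
      rw [hM]
      linarith [e1.1, e2.2]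
  have hx0O : x0 ∈ O := hball (mem_ball_self (by linarith))
  have hx0δ : x0 + δ ∈ ball x0 (ρ / 2) := by
    rw [mem_ball, dist_eq_norm, add_sub_cancel_left, hδn]; exact hm
  have hx0U : x0 ∈ U := ⟨hx0O, hball hx0δ⟩
  refine ⟨(hjm _ (hWO x0 hx0O)).1, ?_⟩
  have hfB : ∀ y ∈ O, ‖f y‖ < 1 := fun y hy => by
    have := (hjm _ (hWO y hy)).1
    rw [mem_ball_zero_iff] at this
    exact BF_mem hω hα k m this
  have hsch := Complex.dist_le_div_mul_dist_of_mapsTo_ball (f := f) (c := x0) (z := x0 + δ) (R₁ := ρ / 2)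
    (R₂ := 2) (hfO.mono hball) (by
      intro y hy
      rw [mem_closedBall, dist_eq_norm]
      refine le_trans (norm_sub_le _ _) ?_
      have := hfB y (hball hy)
      have := hfB x0 hx0O
      linarith) hx0δ
  rw [dist_eq_norm, dist_eq_norm, add_sub_cancel_left, hδn, hmain x0 hx0U] at hsch
  have e1 : ‖- f x0 - f x0‖ = 2 * ‖f x0‖ := by
    rw [show - f x0 - f x0 = -(2 * f x0) by ring, norm_neg, norm_mul]; norm_num
  rw [e1] at hsch
  exact hsch

end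

end Pool.Agent.H66.GEO.EN

namespace Pool.Agent.H66.GEO

open EN

/-- END for any number of critical points: the maps `B_m` fix `0` -/
theorem geo_end_star {th r : ℝ} (h0 : 0 < th) (hr : th < r) (h1 : r < 1) {ω α : ℕ → ℂ} (hω : ∀ s, ‖ω s‖ = 1)
    (hα : ∀ s, ‖α s‖ < 1) {x : ℕ → ℂ → ℂ} (hx : ∀ s, XX th ω α s (x s))
    (hxs : ∀ s, ∀ t ∈ Ss th (s + 1), Bl (ω s) (α s) (x (s + 1) t) = x s (2 * t))
    {I : Set ℕ} (hI : I.Infinite)
    {φ : ℕ → ℂ → ℂ} (dφ : ∀ k ∈ I, DifferentiableOn ℂ (φ k) (ball 0 1)) (iφ : ∀ k ∈ I, InjOn (φ k) (ball 0 1))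
    {u : ℕ → ℕ} (hu : Tendsto u atTop atTop)
    {G0 : ℂ → ℂ} (hG : DifferentiableOn ℂ G0 (Ss th 0)) (hG' : ∀ t ∈ Ss th 0, deriv G0 t ≠ 0)
    (p0 : ∀ t ∈ Ss th 0, G0 (t + Real.pi * Complex.I) = G0 t + 1 / 2)
    {K : ℕ → ℂ → ℂ} {b : ℕ → ℂ}
    (hK : ∀ k ∈ I, ∀ t ∈ Ss th (u k), G0 (2 ^ u k * t) = 2 ^ u k * K k t + b k)
    {gp : ℂ} {ρ : ℝ} (hρ : 0 < ρ) {W : ℂ → ℂ} (dW : DifferentiableOn ℂ W (ball gp (2 * ρ)))
    (hW : ∀ k ∈ I, ∀ t ∈ Ss th (u k), K k t ∈ ball gp (2 * ρ) → W (K k t) = φ k (x (u k) t))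
    (hp : ∀ ε : ℝ, 0 < ε → ∃ k0, ∀ k ∈ I, k0 ≤ k → ∃ t : ℂ, t.re = Real.log r / 2 ^ u k ∧ ‖K k t - gp‖ < ε)
    (cl : ∃ k0, ∀ k ∈ I, k0 ≤ k → ∀ x ∈ ball gp (2 * ρ),
      (∀ t : ℂ, t.re = Real.log r / 2 ^ u k → (K k t).im < x.im) → W x ∈ φ k '' ball 0 1) : ∀ m, α m = 0 := by
  have l1 : Real.log th < Real.log r := Real.log_lt_log h0 hr
  have l2 : Real.log r < 0 := Real.log_neg (h0.trans hr) h1
  obtain ⟨C, hC, htop⟩ := near_one hG p0 l1 l2
  obtain ⟨k2, hk2⟩ := cl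
  obtain ⟨k3, hk3⟩ := hp (ρ / 2 / 4) (by linarith)
  set y : ℕ → ℂ := fun k => Function.invFunOn (φ k) (ball 0 1) (W (gp + ρ * Complex.I)) with hy
  have hlim : ∀ c : ℝ, Tendsto (fun m : ℕ => c / 2 ^ m) atTop (𝓝 0) := by
    intro c
    have := (tendsto_pow_atTop_nhds_zero_of_lt_one (by norm_num : (0 : ℝ) ≤ 1 / 2) (by norm_num)).const_mul c
    rw [mul_zero] at this
    refine this.congr (fun m => ?_)
    rw [one_div, inv_pow]; rfl
  -- the limits
  have key : ∀ m : ℕ, ∀ ε : ℝ, 0 < ε → ∃ k0, ∀ k ∈ I, k0 ≤ k → m + 1 ≤ u k ∧ y k ∈ ball (0 : ℂ) 1 ∧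
      ‖FI (BF ω α) m (u k - m) (y k)‖ < ε := by
    intro m ε hε
    obtain ⟨m1, hm1⟩ := eventually_atTop.1 ((hlim (1 / 2)).eventually_lt_const (show (0 : ℝ) < ρ / 2 by linarith))
    obtain ⟨m2, hm2⟩ := eventually_atTop.1 ((hlim (2 / (ρ / 2) * (1 / 2))).eventually_lt_const hε)
    obtain ⟨m3, hm3⟩ := eventually_atTop.1 ((hlim (C + 1)).eventually_lt_const (show (0 : ℝ) < ρ / 2 / 4 by linarith))
    obtain ⟨k4, hk4⟩ := eventually_atTop.1 (hu.eventually_ge_atTop (m + 1 + m1 + m2 + m3))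
    refine ⟨max (max k2 k3) k4, ?_⟩
    intro k hkI hk
    have g2 : k2 ≤ k := le_trans (le_trans (le_max_left _ _) (le_max_left _ _)) hk
    have g3 : k3 ≤ k := le_trans (le_trans (le_max_right _ _) (le_max_left _ _)) hk
    have g4 := hk4 k (le_trans (le_max_right _ _) hk)
    obtain ⟨t, ht, hmax, hd⟩ := htop (u k) (K k) (b k) gp (ρ / 2) (hK k hkI) (hk3 k hkI g3) (hm3 (u k) (by omega))
    have hmu : m + (u k - m) = u k := by omega
    have e0 : (1 : ℝ) / (2 * 2 ^ (u k - m)) = 1 / 2 / 2 ^ (u k - m) := by rw [div_div]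
    have e1 := hm1 (u k - m) (by omega)
    have e2 := hm2 (u k - m) (by omega)
    obtain ⟨f1, f2⟩ := fun_star (l := Real.log r) hω hα hx hxs (dφ k hkI) (iφ k hkI) hG hG' p0 m (u k - m)
      (K := K k) (b := b k) (by rw [hmu]; exact hK k hkI) hρ dW (by rw [hmu]; exact hW k hkI)
      (by rw [hmu]; exact hk2 k hkI g2) (by rw [e0]; exact e1) (t := t) (by rw [hmu]; exact ht)
      (by rw [hmu]; exact hmax) hd
    refine ⟨by omega, f1, ?_⟩
    rw [e0] at f2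
    have e3 : 2 / (ρ / 2) * (1 / 2 / 2 ^ (u k - m)) = 2 / (ρ / 2) * (1 / 2) / 2 ^ (u k - m) := by ring
    rw [e3] at f2
    have e4 := norm_nonneg (FI (BF ω α) m (u k - m) (y k))
    have e5 : 2 * ‖FI (BF ω α) m (u k - m) (y k)‖ < ε := lt_of_le_of_lt f2 e2
    linarith
  intro m
  -- `B m 0 = 0`
  have hB0 : Bl (ω m) (α m) 0 = 0 := by
    have hc : ContinuousAt (FI (BF ω α) m 1) 0 :=
      (BF_diff hω hα m 1).continuousOn.continuousAt (isOpen_ball.mem_nhds (mem_ball_self one_pos))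
    have hval : ∀ w, FI (BF ω α) m 1 w = Bl (ω m) (α m) w := fun w => rfl
    rw [← norm_le_zero_iff]
    refine le_of_forall_pos_lt_add (fun ε hε => ?_)
    rw [zero_add]
    obtain ⟨δ, hδ, hδ'⟩ := Metric.continuousAt_iff.1 hc (ε / 2) (by linarith)
    obtain ⟨a1, ha1⟩ := key m (ε / 2) (by linarith)
    obtain ⟨a2, ha2⟩ := key (m + 1) δ hδ
    obtain ⟨k, hkI, hk⟩ := hI.exists_gt (a1 + a2)
    obtain ⟨b1, b2, b3⟩ := ha1 k hkI (by omega)
    obtain ⟨-, -, b4⟩ := ha2 k hkI (by omega)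
    have c1 := hδ' (x := FI (BF ω α) (m + 1) (u k - (m + 1)) (y k)) (by rw [dist_zero_right]; exact b4)
    rw [hval, hval] at c1
    have c2 : Bl (ω m) (α m) (FI (BF ω α) (m + 1) (u k - (m + 1)) (y k)) = FI (BF ω α) m (u k - m) (y k) := by
      rw [show u k - m = (u k - (m + 1)) + 1 by omega, FI_succ]
      rfl
    rw [c2, dist_eq_norm] at c1
    calc ‖Bl (ω m) (α m) 0‖ = ‖FI (BF ω α) m (u k - m) (y k) - (FI (BF ω α) m (u k - m) (y k) - Bl (ω m) (α m) 0)‖ := by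
          congr 1; ring
      _ ≤ ‖FI (BF ω α) m (u k - m) (y k)‖ + ‖FI (BF ω α) m (u k - m) (y k) - Bl (ω m) (α m) 0‖ := norm_sub_le _ _
      _ < ε := by linarith
  have hω0 : ω m ≠ 0 := by
    intro h
    have := hω m
    rw [h, norm_zero] at this
    exact zero_ne_one this
  have h2 : Bl (ω m) (α m) 0 = ω m * α m := by simp [Bl]
  rw [h2] at hB0
  exact (mul_eq_zero.1 hB0).resolve_left hω0

end Pool.Agent.H66.GEO
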